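import Mathlib
import Pool.Agent.R4.Geo.Octa

/-!
# A 3-connected graph in which no length assignment makes all geodesic cycles peripheral

The graph is the octahedron with a new vertex of degree three added in each of two opposite faces.
-/

set_option autoImplicit false

namespace Pool.Agent.Results.MP_7b7a44_co.NoLengths

open SimpleGraph

/-- `G` has more than three vertices, and deleting at most two vertices leaves it connected. -/
def ThreeConnected {n : ℕ} (G : SimpleGraph (Fin n)) : Prop :=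
  3 < n ∧ ∀ S : Finset (Fin n), S.card ≤ 2 → (G.induce {v | v ∉ S}).Connected

/-- The length of a walk for the edge lengths `ℓ`. -/
def len {n : ℕ} {G : SimpleGraph (Fin n)} (ℓ : Sym2 (Fin n) → ℝ) {u v : Fin n} (p : G.Walk u v) : ℝ :=
  (p.edges.map ℓ).sum

/-- The cycle `c` is geodesic: whenever two paths `p`, `q` between vertices `x` and `y` are the two arcs
of `c` (together they use each edge of `c` exactly once), no path `r` between `x` and `y` is strictly
shorter than both of them. -/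
def Geodesic {n : ℕ} {G : SimpleGraph (Fin n)} (ℓ : Sym2 (Fin n) → ℝ) {v : Fin n} (c : G.Walk v v) :
    Prop :=
  ∀ (x y : Fin n) (p q : G.Walk x y), p.IsPath → q.IsPath → (p.edges ++ q.edges).Perm c.edges →
    ∀ r : G.Walk x y, r.IsPath → ¬ (len ℓ r < len ℓ p ∧ len ℓ r < len ℓ q)

/-- The cycle `c` is peripheral: it has no chord, and deleting its vertices leaves no two vertices in
different components. -/
def Peripheral {n : ℕ} {G : SimpleGraph (Fin n)} {v : Fin n} (c : G.Walk v v) : Prop :=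
  (∀ x ∈ c.support, ∀ y ∈ c.support, G.Adj x y → s(x, y) ∈ c.edges) ∧
    (G.induce {x | x ∉ c.support}).Preconnected

theorem conn_dec : ∀ S : Finset (Fin 8), S.card ≤ 2 → ∀ u v : Fin 8, u ∉ S → v ∉ S →
    u = v ∨ Pool.Agent.R4.Geo.OG.Adj u v ∨
    (∃ w, w ∉ S ∧ Pool.Agent.R4.Geo.OG.Adj u w ∧ Pool.Agent.R4.Geo.OG.Adj w v) ∨
    (∃ w w', w ∉ S ∧ w' ∉ S ∧ Pool.Agent.R4.Geo.OG.Adj u w ∧ Pool.Agent.R4.Geo.OG.Adj w w' ∧
      Pool.Agent.R4.Geo.OG.Adj w' v) := by decide +kernel

theorem nonempty_dec : ∀ S : Finset (Fin 8), S.card ≤ 2 → ∃ u, u ∉ S := by decide +kernel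

theorem threeConnected : ThreeConnected Pool.Agent.R4.Geo.OG := by
  refine ⟨by norm_num, fun S hS => ?_⟩
  have hadj : ∀ (a b : {v : Fin 8 | v ∉ S}), Pool.Agent.R4.Geo.OG.Adj (a : Fin 8) b →
      (Pool.Agent.R4.Geo.OG.induce {v : Fin 8 | v ∉ S}).Reachable a b := by
    intro a b h
    exact Adj.reachable h
  rw [connected_iff]
  constructor
  · intro a b
    rcases conn_dec S hS a b a.2 b.2 with h | h | ⟨w, hw, h1, h2⟩ | ⟨w, w', hw, hw', h1, h2, h3⟩
    · rw [Subtype.ext h]
    · exact hadj a b h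
    · exact (hadj a ⟨w, hw⟩ h1).trans (hadj ⟨w, hw⟩ b h2)
    · exact ((hadj a ⟨w, hw⟩ h1).trans (hadj ⟨w, hw⟩ ⟨w', hw'⟩ h2)).trans
        (hadj ⟨w', hw'⟩ b h3)
  · obtain ⟨u, hu⟩ := nonempty_dec S hS
    exact ⟨⟨u, hu⟩⟩

/-- There is a 3-connected graph on 8 vertices such that for every assignment of positive lengths to its
edges some geodesic cycle is not peripheral. -/
theorem result : ∃ G : SimpleGraph (Fin 8), ThreeConnected G ∧
    ∀ ℓ : Sym2 (Fin 8) → ℝ, (∀ e ∈ G.edgeSet, 0 < ℓ e) →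
      ∃ (v : Fin 8) (c : G.Walk v v), c.IsCycle ∧ Geodesic ℓ c ∧ ¬ Peripheral c := by
  refine ⟨Pool.Agent.R4.Geo.OG, threeConnected, fun ℓ hℓ => ?_⟩
  by_contra hcon
  push Not at hcon
  have hgeo : ∀ (z : Fin 8) (c : Pool.Agent.R4.Geo.OG.Walk z z),
      Pool.Agent.R4.Geo.GeoL Pool.Agent.R4.Geo.OG ℓ c.edges → Geodesic ℓ c :=
    fun z c h x y p q hp hq hpq r hr => h x y p q r hp hq hpq hr
  have h01 : Pool.Agent.R4.Geo.OG.Adj 0 1 := by decide
  have h12 : Pool.Agent.R4.Geo.OG.Adj 1 2 := by decide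
  have h20 : Pool.Agent.R4.Geo.OG.Adj 2 0 := by decide
  have h34 : Pool.Agent.R4.Geo.OG.Adj 3 4 := by decide
  have h45 : Pool.Agent.R4.Geo.OG.Adj 4 5 := by decide
  have h53 : Pool.Agent.R4.Geo.OG.Adj 5 3 := by decide
  refine Pool.Agent.R4.Geo.main hℓ ?_ ?_ ?_
  · intro z c hc hg
    have hp := hcon z c hc (hgeo z c hg)
    exact Pool.Agent.R4.Geo.peri c hc hp.1 hp.2
  · intro hg
    have hc : (Walk.cons h01 (Walk.cons h12 (Walk.cons h20 Walk.nil))).IsCycle := by
      rw [Walk.cons_isCycle_iff]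
      constructor
      · rw [Walk.isPath_def]
        simp only [Walk.support_cons, Walk.support_nil]
        decide
      · simp only [Walk.edges_cons, Walk.edges_nil]
        decide
    have hp := (hcon 0 _ hc (hgeo 0 _ hg)).2
    refine Pool.Agent.R4.Geo.closed_preconn hp {6} 6 7 ?_ ?_ (by decide) (by decide) ?_
    · simp
    · simp
    · have key : ∀ x : Fin 8, x ∉ [(0 : Fin 8), 1, 2, 0] → Pool.Agent.R4.Geo.OG.Adj 6 x →
          x ∈ ({6} : Finset (Fin 8)) := by decide
      intro u hu x hx hux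
      rw [Finset.mem_singleton] at hu
      subst hu
      refine key x ?_ hux
      simpa using hx
  · intro hg
    have hc : (Walk.cons h34 (Walk.cons h45 (Walk.cons h53 Walk.nil))).IsCycle := by
      rw [Walk.cons_isCycle_iff]
      constructor
      · rw [Walk.isPath_def]
        simp only [Walk.support_cons, Walk.support_nil]
        decide
      · simp only [Walk.edges_cons, Walk.edges_nil]
        decide
    have hp := (hcon 3 _ hc (hgeo 3 _ hg)).2
    refine Pool.Agent.R4.Geo.closed_preconn hp {7} 7 6 ?_ ?_ (by decide) (by decide) ?_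
    · simp
    · simp
    · have key : ∀ x : Fin 8, x ∉ [(3 : Fin 8), 4, 5, 3] → Pool.Agent.R4.Geo.OG.Adj 7 x →
          x ∈ ({7} : Finset (Fin 8)) := by decide
      intro u hu x hx hux
      rw [Finset.mem_singleton] at hu
      subst hu
      refine key x ?_ hux
      simpa using hx

end Pool.Agent.Results.MP_7b7a44_co.NoLengths
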